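import Mathlib
import Pool.Agent.H451.XP.Def
import Pool.Agent.H451.XP.A8

/-!
# The conjecture of Beilinson and Bloch in all codimensions for products of diagonal cubics

Let `K = ℚ(√-3)` and `X = V × Y_1 × ⋯ × Y_r` with any `r ≥ 1`, where

* `V : a_1 x_1 ^ 3 + ⋯ + a_m x_m ^ 3 = 0`, `m = 3, 5, 7`, is a curve, a threefold or a fivefold,
* `Y_t : b_{t,1} y_1 ^ 3 + ⋯ + b_{t,n_t} y_{n_t} ^ 3 = 0`, `n_t = 4` or `2`, is a cubic surface, or the spectrum
  of `K[y] / (b_{t,1} y ^ 3 + b_{t,2})` (so that a product with it is the base change to the extension of `K`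
  generated by a cube root of `b_{t,2} / b_{t,1}`),

all coefficients in `𝓞 K`, not zero.  This is a smooth projective variety over `K`, of dimension
`m - 2 + 2 #{t | n_t = 4}`, with non-trivial odd cohomology in `1 + 2 #{t | n_t = 4}` degrees.  By classical
work (Weil, Shioda and Katsura; not in Lean) the Chow motive of `V` is the sum of powers of the Lefschetz
motive and of the `h¹(E_S)(-h)`, `h = (m - 3) / 2`, `E_S : y ^ 2 + D_S y = x ^ 3`, `D_S = ∏ a_i · ∏_{i ∈ S} a_i`,
`S` a set of `h` indices, and the motive of `Y_t` is the sum of powers of the Lefschetz motive and of the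
twists of the motives of the cubic characters of `∏ b_i · ∏_{i ∈ T} b_i`, `T` a set of half of the indices.  So
the part of the motive of `X` that is homologically trivial is the sum of the `h¹(E_{S,τ})(-j)` with
`D_{S,τ} = D_S · ∏_t (∏ b_{t,i} · ∏_{i ∈ τ_t} b_{t,i})` (`DX`), where for each `t` the factor is `1` or comes from
a set `τ_t` of half of the indices, and `CH^i(X)_0 = ⊕ E_{S,τ}(K) ⊗ ℚ`, the sum over the classes `(S, c)` with
`h + ∑ sh (c_t) + 1 = i`, each with the type `τ_t = ty (c_t)`.  The corresponding identity of the numbers of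
points over all the finite fields (`MotX`) is proved here.

We prove that for a positive proportion of ALL these `X`, by the norms of the coefficients, the conjecture
holds in all the codimensions `i`, with both sides zero (`AllCodim`): all the
`m.choose h · 3 ^ #{n_t = 2} · 7 ^ #{n_t = 4}` groups `E_{S,τ}(K)` are finite, and for all `i` the `L`-function of
`H^(2 i - 1)(X)` is entire and does not vanish at `s = i`.  The `L`-function is defined by the numbers of the
points of `X` over all the extensions of the residue fields (`IsFrobX`), without the Euler factors at the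
primes that divide `3` or a coefficient; the true factors there have neither zeros nor poles at `s = i`,
because the `E_{S,τ}` have potentially good reduction.

In the boxes `BoxX` with admissible residues (`Res`; they have positive density) we prove the joint law of all
the ranks: the orders `3 ^ (ν + 1)` of the Selmer groups of the endomorphism `√-3` of all the `E_{S,τ}` are
asymptotically independent, with the law `prob ν` of Cohen-Lenstra type, so the conjecture holds with both
sides zero for at least the share `0.639… ^ (C(m, h) · ∏ (1 + C(n_t, n_t / 2)))`, the limit of the share of the `X`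
with trivial Selmer groups, and `dim CH^i(X)_0 ≤ 2 ∑ ν` for the others.

The case `r = 0` is `MP_b8021b_nt.AllDiagonalCubicsByHeight`.  New here: the products, so varieties of
arbitrary dimension with non-trivial `CH^i(X)_0` predicted in arbitrarily many codimensions, the base changes
to arbitrary Kummer extensions of exponent `3`, and the joint law of all these twists.
-/

set_option autoImplicit false

namespace Pool.Agent.Results.MP_0b9e0b_ag.AllCodimensionsH451

open NumberField IsDedekindDomain Pool.Agent.H451.XP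
open Pool.Agent.H451.TB (SelRoot rank prob)
open scoped Classical

/-- **The conjecture of Beilinson and Bloch in all codimensions for a positive proportion of all the
products of a diagonal cubic curve, threefold or fivefold with diagonal cubics of dimension `0` and `2`.** -/
theorem result (K : Type) [Field K] [NumberField K] [IsCyclotomicExtension {3} ℚ K] (m : ℕ)
    (hm : m = 3 ∨ m = 5 ∨ m = 7) (r : ℕ) (_hr : 0 < r) (n : Fin r → ℕ)
    (hn : ∀ t, n t = 2 ∨ n t = 4) :
    -- (1) the motive and the Frobenius eigenvalues, for all `X`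
    (∀ (a : Fin m → 𝓞 K) (b : ∀ t : Fin r, Fin (n t) → 𝓞 K), MotX a b ∧
      ∃ (ι : Type) (_ : Fintype ι) (deg : ι → ℕ) (α : HeightOneSpectrum (𝓞 K) → ι → ℂ),
        ∀ v, Gdx a b v → IsFrobX a b v deg (α v)) ∧
    -- (2) the conjecture in all the codimensions for a positive proportion of all `X`
    (∃ c : ℝ, 0 < c ∧ ∃ X₀ : ℕ, ∀ X : ℕ, X₀ ≤ X → c * ((AllX K m n X).ncard : ℝ) ≤
      ({p | p ∈ AllX K m n X ∧ AllCodim p.1 p.2}.ncard : ℝ)) ∧
    -- (3) the boxes
    (∃ (ρ : Fin m → ℕ) (σ : ∀ t : Fin r, Fin (n t) → ℕ), Res ρ σ) ∧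
    ∀ (ρ : Fin m → ℕ) (σ : ∀ t : Fin r, Fin (n t) → ℕ), Res ρ σ →
      -- (4) they have positive density
      (∃ c : ℝ, 0 < c ∧ ∃ X₀ : ℕ, ∀ X : ℕ, X₀ ≤ X →
        c * (X : ℝ) ^ (m + ∑ t, n t) ≤ ((BoxX K ρ σ X).ncard : ℝ)) ∧
      -- (5) the ranks, and the conjecture for trivial Selmer groups
      (∀ X : ℕ, ∀ p ∈ BoxX K ρ σ X,
        (∀ (S : Idx m) (τ : ∀ t, Ty (n t)), ∃ ν : ℕ,
          (SelRoot ((DX p.1 p.2 S.1 τ : 𝓞 K) : K)).ncard = 3 ^ (ν + 1) ∧
          rank ((DX p.1 p.2 S.1 τ : 𝓞 K) : K) ≤ 2 * ν) ∧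
        ((∀ (S : Idx m) (τ : ∀ t, Ty (n t)),
          (SelRoot ((DX p.1 p.2 S.1 τ : 𝓞 K) : K)).ncard = 3) → AllCodim p.1 p.2)) ∧
      -- (6) the joint law of the Selmer groups
      (∀ ν : Idx m → (∀ t, Ty (n t)) → ℕ, Filter.Tendsto (fun X : ℕ =>
        ({p | p ∈ BoxX K ρ σ X ∧ ∀ (S : Idx m) (τ : ∀ t, Ty (n t)),
          (SelRoot ((DX p.1 p.2 S.1 τ : 𝓞 K) : K)).ncard = 3 ^ (ν S τ + 1)}.ncard : ℝ) /
        ((BoxX K ρ σ X).ncard : ℝ)) Filter.atTop (nhds (∏ S, ∏ τ, prob (ν S τ)))) ∧
      -- (7) the share of the trivial ones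
      Filter.Tendsto (fun X : ℕ =>
        ({p | p ∈ BoxX K ρ σ X ∧ ∀ (S : Idx m) (τ : ∀ t, Ty (n t)),
          (SelRoot ((DX p.1 p.2 S.1 τ : 𝓞 K) : K)).ncard = 3}.ncard : ℝ) /
        ((BoxX K ρ σ X).ncard : ℝ)) Filter.atTop
        (nhds ((∏' i : ℕ, (1 - (1 / 3 : ℝ) ^ (2 * i + 1))) ^
          (m.choose ((m - 3) / 2) * ∏ t, (1 + (n t).choose (n t / 2))))) :=
  final_XP K m hm r n hn

end Pool.Agent.Results.MP_0b9e0b_ag.AllCodimensionsH451
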