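import Pool.Agent.H835.AV.ChowAct

set_option autoImplicit false

/-!
# Cycles on quotients of diagonal complete intersections

Let `K` be a field which contains a primitive `m`-th root of unity `ζ` (for instance a global field),
`m ≥ 2`, and let `X` in `P^(N-1)` be the intersection of the diagonal hypersurfaces
`∑ j, A i j * x j ^ m = 0`, `i = 1, ..., ρ`, where all maximal minors of `A` are nonzero. So `X` is a
smooth complete intersection of dimension `n = N - 1 - ρ`; it is of general type if `ρ m > N`. The
group `(ℤ/m)^N` acts on `X` (the element `g` multiplies the coordinate `x j` by `ζ ^ g j`), and so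
its group ring over `ℚ` acts on the Chow groups `CH_i(X) ⊗ ℚ`.

Let `z` be an element of the group ring and `c ≥ 1` with `(c + ρ - 1) m + 3 ≤ 2 N`. The theorem:
if `z` is killed by all characters `x` of `(ℤ/m)^N` with `∑ x j = 0`, with less than `ρ` zero
coordinates, and of height at most `(c + ρ - 1) m` (the height is the sum of the representatives
of the `x j` in `{1, ..., m}`), then `z` maps `CH_i(X) ⊗ ℚ` to the multiples of the class of a
linear section, for all `i < c`.

By Griffiths, Terasoma and others, over the complex numbers `H^(n-q,q)(X)` is the sum of its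
eigenspaces for the characters `x` (or `-x`, depending on conventions) with `∑ x j = 0`, which have
less than `ρ` zero coordinates, say `e` of them, and with `m (q + 1) ≤ ∑ ⟨x j⟩ ≤ m (q + ρ - e)`,
the sum of the representatives in `{1, ..., m - 1}` of the nonzero `x j`. So the condition on `z`
says that `z` acts as zero on the `H^(n-q,q)(X)` and `H^(q,n-q)(X)` for all `q < c`. Example: if `z`
is the sum of the elements of a subgroup `H` it says (for `c ≤ n/2`) that `H^(p,q)(X/H) = 0` for
`p ≠ q` and `min(p,q) < c`, and the conclusion is that all homologically trivial cycles of dimension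
`i < c` on `X/H` are torsion.
-/

universe u

namespace Pool.Agent.Results.MP_0b9e0b_ag.DiagonalQuotients

open MvPolynomial Pool.Agent.H835.AV

/-- **Cycles of low dimension on quotients of diagonal complete intersections.** Here `diagI m A`
is the ideal of `X`, `hgt x` is the height of `x`, `rootAct` is the action of `(ℤ/m)^N` on the Chow
group `CH (diagI m A) i` with rational coefficients, `ratEq I i` is the space of cycles of dimension
`i` on `I = 0` which are rationally equivalent to zero, `cyc I i J` the cycle of the closed
subscheme `J = 0`, and `DimAtMost J i` says that `J = 0` has dimension at most `i`. -/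
theorem result (K : Type u) [Field K] (m : ℕ) [NeZero m] (hm : 2 ≤ m) (ζ : K)
    (hζ : IsPrimitiveRoot ζ m) (N ρ c : ℕ) (A : Matrix (Fin ρ) (Fin N) K)
    (hA : ∀ f : Fin ρ → Fin N, Function.Injective f → (A.submatrix id f).det ≠ 0)
    (hc : (c + ρ - 1) * m + 3 ≤ 2 * N) (z : (Fin N → ZMod m) → ℚ)
    (hz : ∀ x : Fin N → ZMod m, ∑ j, x j = 0 →
      (Finset.univ.filter fun j => x j = 0).card < ρ → hgt x ≤ (c + ρ - 1) * m →
      ∑ g, (z g : ℂ) * ZMod.stdAddChar (∑ j, x j * g j) = 0)
    (i : ℕ) (hi : i < c) :
    ∃ (r : ℕ) (l : Fin r → Fin N),
      DimAtMost (diagI m A ⊔ Ideal.span (Set.range fun j => X (l j))) i ∧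
      ∀ α : CH (diagI m A) i, ∃ q : ℚ,
        ∑ g, z g • rootAct hζ.pow_eq_one (dvd_refl m) A i g α =
        q • (ratEq (diagI m A) i).mkQ
          (cyc (diagI m A) i (diagI m A ⊔ Ideal.span (Set.range fun j => X (l j)))) := by
  have h := rootAct_main (n := m) (a := 0) hζ (by rw [pow_zero, mul_one]) A i z
    (fun e he z' hz' => diag_main he hm A hA (c := c) (by omega) (by omega) hc z' (by
      intro x hx h0 hh
      have h1 := sum_ch_conj z x (-1) (hz x hx h0 hh)
      have h2 : (fun j => ((-1 : (ZMod m)ˣ) : ZMod m) * x j) = -x := by
        funext j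
        rw [Units.val_neg, Units.val_one, neg_one_mul]
        rfl
      rw [h2] at h1
      rw [← h1]
      refine Fintype.sum_equiv (Equiv.neg _) _ _ fun g => ?_
      rw [Equiv.neg_apply, hz', ch_neg_left, neg_neg]))
  exact h

end Pool.Agent.Results.MP_0b9e0b_ag.DiagonalQuotients
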