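import Mathlib
import Pool.Agent.H298.Core.WeilRel
import Pool.Graph.R_pool_sql_team_seeded_843ab51a.V1168.BB.Main
import Pool.Agent.H298.Core.Double

/-!
# The Beilinson–Bloch conjecture over function fields for the products of arbitrary varieties with
constant abelian varieties whose CM fields have irreducible odd part or primitive core

**In short.** Let `K` be a CM field of degree `2 g`, `K₀` its maximal real subfield and `2 ^ v`, `1
≤ v ≤ g`, the degree of the Galois closure of `K` over the Galois closure of `K₀` (typically `v =
g`). The theorem is for the Weil numbers `π` all powers of which generate `K`, in the following
cases (`FieldCriteria`), among others: **(a) `v > g / 3`; (b) the slopes of `π` have odd
denominators, for example `π` is ordinary, and `v > g / 4`, or `g` is the product of two prime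
numbers and `v > 1`, or `g` is prime, or `K` has few divisors in the sense of `FewDivisors`; (c) the
Galois group of `K₀` is doubly transitive, and `g` is odd, or `g - 1` is a prime number, or at least
`g` is none of the numbers `10, 16, 26, 28, 36, …` (`TwoGraphDegree`); or it is triply transitive,
for example the symmetric group, or the alternating group if `g ≥ 5`, `g ≥ 3`; and no norm of `π` to
an imaginary quadratic field is supersingular** (this is
so if `g` is odd and `π` is ordinary). The general hypothesis (`IsCoreWeil`) is explained below.

**Cores.** Let `X` be the set of the complex embeddings of the CM field `K`, `[K : ℚ] = 2 g`. The
automorphisms of `ℂ` which map all elements of `X` to themselves or to their complex conjugates are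
called sign changes. The first core of `φ : X` consists of the `ψ : X` which are moved by the same
sign changes as `φ`. If one uses all automorphisms which map the elements of the first core to
themselves or to their conjugates, one obtains the second core, inside of the first one, and so on
(`coreOf`). The cores of the same index have the same number `2 c` of elements, `c` divides `g`, and
the smallest such number `c` is the core number of `K`. It satisfies `c ≤ g / v`, and if a prime
number `q` divides the discriminant of `K`, but not the discriminant of the maximal real subfield,
then `q ^ c` divides the discriminant of `K`. `FewDivisors` says that all divisors of `g` which
satisfy these conditions are one or prime.

**The Weil numbers.** Let `p` be a prime number, `q = p ^ a`, let `K i` (`i` in a finite set) be CM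
fields and `π i` Weil numbers for `q` in `K i` such that each power `(π i) ^ n`, `n ≥ 1`, generates
`K i`. By Honda and Tate they correspond to the abelian varieties over the field with `q` elements
which are geometrically simple with commutative endomorphism ring, and to other abelian varieties.
Suppose that for each `K = K i` one of the following conditions holds (`IsCoreWeil`).

* The rational functions on `X` which change their sign under complex conjugation are an irreducible
  representation of the automorphisms of `ℂ` (`OddIrreducible`), for example because the core number
  of `K` is one.
* There is a core with `c` pairs of embeddings, and `c` is a prime number, or `c = [K : F]` for a
  subfield `F`, not totally real, such that the automorphisms of `ℂ` act doubly transitively on the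
  extensions to `K` of an embedding of `F` (`PrimitiveCore`); and there is **no** subfield `F` with
  `[K : F] = c`, not totally real, in which the norm `N` of `π i` is supersingular
  (`SupersingularNorm`; this means that `N ^ 2 / q ^ c` is a root of unity).

The condition on the norms in the second case is necessary and sufficient for the absence of
relations between the conjugates of `π i` (`NormCriteria`), and so of exotic Tate classes on the
powers of its abelian variety; it is satisfied if `c = 2`, if `c` is odd and the slopes of `π i`
have odd denominators (for example in the ordinary case), and if all subfields `F` with `[K : F] =
c` are totally real. There are no other conditions on `π i`, its slopes, the decomposition of `p` in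
`K i`, the degree or the Galois group of `K i`. The fields `K i` are pairwise independent
(`PairwiseIndep`; no condition if there is only one field). Let `f i` be monic polynomials whose
complex roots are conjugates of `π i` (`IsPolyOf`), for instance powers of the characteristic
polynomials of Frobenius. For all such data let `A` be an abelian variety over the field with `Q = q
^ s` elements which is isogenous to a product of powers of abelian varieties coming from the field
with `q` elements, with characteristic polynomials `f i`.

**The theorem** (`BeilinsonBlochTimes`). Let `k` be the function field of a smooth projective
geometrically connected curve over the field with `Q` elements. Let `Y` be **any** smooth projective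
variety over `k` (not constant; nothing is supposed about the conjectures of Tate and Beilinson)
which is unrelated to the fields `K i` in the following sense (`VarietyUnrelated`):

* the zeros and poles `s` of the `L`-functions of the groups `H^b(Y)` are such that `Q^s` is
  unrelated to the fields `K i`. (The numbers `Q^s` are the eigenvalues of Frobenius on the
  cohomology of the curve with coefficients in `H^b(Y)`. By Grothendieck the `L`-functions are
  rational functions of `Q^(-s)`.)
* the absolute Frobenius endomorphism of `Y` satisfies, on each group `CH^i(A × Y)`, a nonzero
  rational polynomial all of whose roots are unrelated to the fields `K i`. (This is true for
  instance if `Y` is the generic fibre of a smooth projective variety over the field with `Q`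
  elements whose motive is finite-dimensional in the sense of Kimura and O'Sullivan and whose
  Frobenius eigenvalues are unrelated to the `K i`.)

A complex number `ρ ≠ 0` is unrelated to the fields `K i` (`Unrelated`) if a rational function on
the complex embeddings of `K i` which changes its sign under complex conjugation and is invariant
under all automorphisms of `ℂ` that fix a power of `ρ` is zero. This is so if for each embedding `ψ`
of `K i` some automorphism which fixes a power of `ρ` is the complex conjugation on `ψ (K i)`, for
instance if a power of `ρ` is in a totally real field, or in a number field `F` from which `K i` is
separated by a prime number (see below).

Then there are products `D t` of `c t` divisor classes on `A`, finitely many (independent of `Y`),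
such that

1. every class in `CH^i(A × Y)_0` is in a unique way the sum of the products of the `D t` with
   classes in `CH^(i - c t)(Y)_0`;
2. the order at `s = i` of the `L`-function of `H^(2 i - 1)(A × Y)` is the sum over `t` of the
   orders at `s = i - c t` of the `L`-functions of `H^(2 (i - c t) - 1)(Y)`;
3. **the formula of Beilinson and Bloch holds for `A × Y` in all codimensions `i ≤ n` if and only if
   it holds for `Y` in all codimensions `i ≤ n`, for all `n`.**

So the conjecture for all the varieties `A × Y` reduces to the one for `Y`. For instance, if `Y` is
a point, or an elliptic curve or a surface for which the conjecture is known, with `L`-functions as
above, it holds for all `A × Y`, in all codimensions.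

Part two (`AllCriteria`) contains the criteria: the cases (a), (b) and (c) above (`FieldCriteria`, `DoublyCriteria`),
the facts about the cores (`CoreFacts`) and about the norms (`NormCriteria`), the independence of
the fields, and the condition on the eigenvalues. A prime number `ℓ` separates `K i` from a number
field `F` if `ℓ` divides the discriminant of `K i` but not the one of its maximal real subfield and
not the one of `F`. The fields `K i` are pairwise independent if any two of them are separated by a
prime number (in one direction). All nonzero elements of `F` are independent of the `K i`, in
particular unrelated to them, if all `K i` are separated from `F`. So for example, if `ℓ` divides
the discriminant of a CM field `K` and `ℓ ^ 2` does not, then the theorem holds for all Weil numbers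
`π` in `K` with `ℚ(π ^ n) = K` for all `n`, and all varieties whose eigenvalues lie in fields of a
discriminant prime to `ℓ`.

The framework is the one of the library (`AbelianData`, `IsAbelian`, `RelData`, `IsRel`,
`Regulator`, `IsRegulator`, `PureChow`, `LocalData`, `CohData`, `IsCoh`, `IsContinuation`): the Chow
ring and the ring of correspondences of `A`, with rational coefficients, and the cohomology of `A`,
with the formal properties and the theorems of Tate on divisors and of Kimura on the nilpotence of
homologically trivial correspondences; the Chow groups of `Y` and `A × Y`; the `L`-functions as
Euler products over the places of `k`.

**What was known.** For almost all slope types this is in the library (`AllCMTypesTimes`, whose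
machine is used); for constant abelian varieties of prime dimension it follows from work of Tankeev,
Soulé, Kahn and Jannsen. New here are the abelian varieties of all dimensions in the fields with
primitive cores, with a condition on the norms which is necessary and sufficient, without
exceptional types.

**The proof.** It is sufficient to show for each field `K` that the function `w`, the slope of `φ
(π)` minus one half, on the set `X` is not orthogonal to a nonzero space of odd functions which is
stable under the automorphisms of `ℂ`. If the odd functions are irreducible this is clear. Let `r`
be an element of such a space with integral values. By the sign changes one can cut `r` down; this
gives, by induction on the size of the support and on the index of the core, a relation which is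
supported in one core. The automorphisms preserving the core act transitively on it. If it has `2 c`
elements with a prime number `c`, then a Sylow subgroup contains an element which has two orbits of
length `c` on the core, exchanged by the complex conjugation. Since the cyclotomic polynomial is
irreducible, either `w (τ φ) = w (τ φ')` for all `τ` with two different `φ`, `φ'` of the core, or
the sums of `w` over the translates of one orbit are zero, and the orbit consists of the extensions
of an embedding of a subfield `F` with `[K : F] = c`, which is not totally real. In the doubly
transitive case the extensions of an embedding of `F` are one half of the core (a sign change moves
all of them or none), and an average over a stabilizer gives the same two alternatives. In the first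
case `φ (π)` and `φ' (π)` have the same absolute values at all places of all conjugates, so they
differ by a root of unity, and a power of `π` does not generate `K`. In the second case the norm of
`π` in `F` is supersingular. Conversely a supersingular norm is a relation, by Kronecker's theorem.
For the cases (a), (b) and (c) one uses that a sign change is determined by the first cores which it
moves, so that `2 ^ v ≤ 2 ^ (g / c)`, and that for a triply transitive group either the odd
functions are irreducible or the signs are given by a character of the group, so that `K` contains
an imaginary quadratic field. If the group is doubly transitive, let `V` be a space of odd functions
which is stable under the automorphisms, neither zero nor everything. The values of its reproducing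
kernel at two embeddings in different pairs are `β` or `-β`, and `β ≠ 0`; the signs form a regular
two-graph on the `g` pairs, with the eigenvalues `r` on `V` and `-s` on the orthogonal space,
`r s = g - 1`, `(r + s) dim V = g s`. If `g` is odd then `r` or `s` is even, and a descent modulo two
shows that the nonzero functions in one of the two spaces have no zeros; by the maximum principle
this is also true if `r` or `s` is `1` or `-1`. So this space has dimension one, and the signs of its
functions give an imaginary quadratic subfield.
-/

set_option autoImplicit false

namespace Pool.Agent.Results.MP_0b9e0b_ag.SmallCoreFields

open NumberField Polynomial Pool.Agent.H977R3.CM Pool.Agent.Y1.CT Pool.Agent.H298.Core
  Pool.Agent.V1168.BB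

/-- **The formula of Beilinson and Bloch for `A × Y` in all codimensions at most `n` is equivalent to
the one for `Y` in all codimensions at most `n`, for all constant abelian varieties `A` whose Weil
numbers lie in independent CM fields with irreducible odd part or primitive core, and all unrelated
varieties `Y` over function fields.** -/
theorem result :
    (∀ (p : ℕ) [Fact p.Prime] (a : ℕ), 0 < a → ∀ (I : Type) [Fintype I] (K : I → Type)
      [∀ i, Field (K i)] [∀ i, NumberField (K i)] [∀ i, IsCMField (K i)], PairwiseIndep K →
      ∀ (π : ∀ i, K i) (f : I → ℤ[X]), (∀ i, IsCoreWeil p a (π i)) →
      (∀ i, IsPolyOf (π i) (f i)) → BeilinsonBlochTimes K (p ^ a) f) ∧ AllCriteria :=
  ⟨fun _ _ _ ha _ _ _ _ _ _ hK _ _ hπ hf =>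
    beilinsonBlochTimes (Nat.one_lt_pow ha.ne' (Fact.out : Nat.Prime _).one_lt)
      (noRel_unrelated ha hK hπ hf), allCriteria_hold⟩

end Pool.Agent.Results.MP_0b9e0b_ag.SmallCoreFields
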