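import Pool.Agent.H835.AV.Chow
import Pool.Agent.H835.AV.Perf

set_option autoImplicit false

/-!
# Cycles on sums of forms over an arbitrary field

Let `K` be any field (for instance a global field) and `X` the zero set in the projective space
`P^(N-1)` of `ρ` forms of degree `n`, each of which is a sum `G_1 + ... + G_s` of forms of degree `n`
in `s` disjoint (nonempty) blocks of variables. (If all blocks have one variable these are diagonal
forms.) Let `m` be the largest divisor of `n` prime to the characteristic of `K` (so `m = n` in
characteristic zero).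

1. If `m (i + ρ) < s` then `CH_i(X) ⊗ ℚ` is generated by the class of a linear
   section of `X` of dimension `i`, cut out by coordinate hyperplanes. In particular all
   homologically trivial cycles of dimension `i` on `X` are torsion. There is no hypothesis on the
   singularities of `X`. The roots of unity are not assumed to be in `K`.

Now let `X` be a hypersurface (`ρ = 1`). The field `K` is still arbitrary.

2. If `m i < s` and `n (i + 1) < N`, then `CH_i(X) ⊗ ℚ` is generated by the class of any linear
   section of dimension `i`. (There is no hypothesis on the singularities of `X` and on the roots of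
   unity.) In characteristic `0`, this is better than 1 for `ρ = 1`, and `n (i + 1) < N` is the
   condition which is expected for smooth hypersurfaces.
3. Let `X` be smooth, `dim X = i + j`, `1 ≤ j < i` and `m j < s`. Then
   `CH^j(X) ⊗ ℚ = CH_i(X) ⊗ ℚ` is generated by the class of any linear section of dimension `i`.

4. Let `K` contain a primitive `m`-th root of unity. Then the group `(ℤ/m)^s` acts on `X`. There are
   results on the action of its group ring on `CH_i(X) ⊗ ℚ`, and on the invariants of its subgroups,
   without the conditions on `s` and `N`: in the situation of 2 it is enough that all characters `x`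
   with sum zero (and trivial on the subgroup) split into `i + 2` characters with sum zero, or into
   `i + 1` characters with sum zero, one of which comes from more than `n` variables. In
   the situation of 3, it is enough that they split into `j + 1` characters with sum zero.
-/

universe u

namespace Pool.Agent.Results.MP_0b9e0b_ag.SumsOfFormsLowDim

open MvPolynomial Pool.Agent.H835.AV
open Pool.Agent.W5h86.HC (lform)

section defs

variable {K : Type u} [Field K] {N s m n i : ℕ}

/-- The hypersurface `F = 0` in the projective space over `K` is smooth. -/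
def Smooth (F : MvPolynomial (Fin N) K) : Prop :=
  ∀ x : Fin N → AlgebraicClosure K, x ≠ 0 → aeval x F = 0 → ∃ l, aeval x (pderiv l F) ≠ 0

/-- The action of `(ℤ/m)^s` on the Chow groups of the hypersurface `F = 0`, where `F` is a sum of
forms of degree `n` in the blocks of variables given by `β` (the variable `X l` belongs to the block
`β l`): `g` acts by the automorphism which multiplies the coordinates in the block `k` by
`ζ ^ g k`. -/
noncomputable def act {ζ : K} (hζ : IsPrimitiveRoot ζ m) [NeZero m] (hmn : m ∣ n)
    {β : Fin N → Fin s} {F : MvPolynomial (Fin N) K} (hF : SF β n F) (i : ℕ)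
    (g : Fin s → ZMod m) : CH (Ideal.span {F}) i →ₗ[ℚ] CH (Ideal.span {F}) i :=
  blockAct hζ.pow_eq_one (span_stable hζ.pow_eq_one hmn hF) i g

/-- There is a partition of the set of blocks into `c` nonempty parts such that the sum of the
`x k` over each part is `0`. -/
def Splits (x : Fin s → ZMod m) (c : ℕ) : Prop :=
  ∃ π : Fin s → Fin c, Function.Surjective π ∧ ∀ l, ∑ k with π k = l, x k = 0

/-- There is a partition of the set of blocks into `c` nonempty parts such that the sum of the
`x k` over each part is `0`, and one of the parts contains more than `n` variables. -/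
def BigSplits (β : Fin N → Fin s) (n : ℕ) (x : Fin s → ZMod m) (c : ℕ) : Prop :=
  ∃ π : Fin s → Fin c, Function.Surjective π ∧ (∀ l, ∑ k with π k = l, x k = 0) ∧
    ∃ l, n < (Finset.univ.filter fun j => π (β j) = l).card

/-- The linear forms with the coefficients `c 1, …, c r` cut out a linear section of dimension `i` of
the hypersurface `F = 0`: they are linearly independent, `r = N - i - 2`, and `F` does not vanish on
the linear subspace which they define. -/
def IsSection (F : MvPolynomial (Fin N) K) (i : ℕ) {r : ℕ} (c : Fin r → Fin N → K) : Prop :=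
  LinearIndependent K c ∧ i + 2 + r = N ∧ F ∉ Ideal.span (Set.range fun l => lform (c l))

/-- All elements of `A` are multiples of the class of every linear section of dimension `i`, and
there are such sections if `K` is infinite. -/
def SectionMultiples (F : MvPolynomial (Fin N) K) (i : ℕ) (A : Set (CH (Ideal.span {F}) i)) :
    Prop :=
  (Infinite K → ∃ (r : ℕ) (c : Fin r → Fin N → K), IsSection F i c) ∧
  ∀ (r : ℕ) (c : Fin r → Fin N → K), IsSection F i c → ∀ α ∈ A, ∃ q : ℚ,
    α = q • (ratEq (Ideal.span {F}) i).mkQ (cyc (Ideal.span {F}) i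
      (Ideal.span {F} ⊔ Ideal.span (Set.range fun l => lform (c l))))

/-- If `z` is an element of the rational group ring of `(ℤ/m)^s` which is killed by all characters
`x` with sum `0` such that `T x` is false, then the image of `z` on `CH_i` is in the multiples of
the linear sections. If `H` is a subgroup and `T x` is true for all `x` with sum `0` which are
trivial on `H`, then the invariants of `H` are in the multiples of the linear sections. -/
def ActsBySections {ζ : K} (hζ : IsPrimitiveRoot ζ m) [NeZero m] (hmn : m ∣ n)
    {β : Fin N → Fin s} {F : MvPolynomial (Fin N) K} (hF : SF β n F) (i : ℕ)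
    (T : (Fin s → ZMod m) → Prop) : Prop :=
  (∀ z : (Fin s → ZMod m) → ℚ,
    (∀ x : Fin s → ZMod m, ∑ k, x k = 0 → ¬ T x →
      ∑ g, (z g : ℂ) * ZMod.stdAddChar (∑ k, x k * g k) = 0) →
    SectionMultiples F i (Set.range fun α => ∑ g, z g • act hζ hmn hF i g α)) ∧
  ∀ H : AddSubgroup (Fin s → ZMod m),
    (∀ x : Fin s → ZMod m, ∑ k, x k = 0 → (∀ h ∈ H, ∑ k, x k * h k = 0) → T x) →
    SectionMultiples F i {α | ∀ g ∈ H, act hζ hmn hF i g α = α}

lemma actsBySections {ζ : K} {hζ : IsPrimitiveRoot ζ m} [NeZero m] {hmn : m ∣ n}
    {β : Fin N → Fin s} {F : MvPolynomial (Fin N) K} {hF : SF β n F}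
    {T : (Fin s → ZMod m) → Prop}
    (h : ∀ z : (Fin s → ZMod m) → ℚ,
      (∀ x : Fin s → ZMod m, ∑ k, x k = 0 → ¬ T x →
        ∑ g, (z g : ℂ) * ZMod.stdAddChar (∑ k, x k * g k) = 0) →
      SectionMultiples F i (Set.range fun α => ∑ g, z g • act hζ hmn hF i g α)) :
    ActsBySections hζ hmn hF i T := by
  refine ⟨h, fun H hH => ?_⟩
  obtain ⟨h1, h2⟩ := h (proj H) fun x hx hsp => by
    by_contra hcon
    apply hsp
    refine hH x hx fun h hh => ?_
    by_contra hne
    exact hcon (sum_proj_ch H hh hne)
  exact ⟨h1, fun r c hc α hα => h2 r c hc α ⟨α, sum_proj_smul H hα⟩⟩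

end defs

/-- **Cycles on intersections of sums of forms.** Here `SF β n F` says that `F`
is a sum of forms of degree `n`, one for each block of variables (`β j` is the block of the variable
`X j`), `ratEq I i` is the space of cycles of dimension `i` rationally equivalent to zero on the
closed subscheme `I = 0`, `CH I i` is the Chow group with rational coefficients, `cyc I i J` is the
cycle of the closed subscheme `J = 0` and `DimAtMost J i` says that `J = 0` has dimension at
most `i`. -/
theorem result (K : Type u) [Field K] (m a n : ℕ) [NeZero m] (hm : (m : K) ≠ 0)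
    (hn : n = m * ringExpChar K ^ a) (hmn : m ∣ n) (N s : ℕ) (β : Fin N → Fin s)
    (hβ : Function.Surjective β) :
    (∀ ρ i : ℕ, m * (i + ρ) < s →
      ∀ G : Fin ρ → MvPolynomial (Fin N) K, (∀ k, SF β n (G k)) →
      ∃ (r : ℕ) (c : Fin r → Fin N),
        DimAtMost (Ideal.span (Set.range G) ⊔ Ideal.span (Set.range fun j => X (c j))) i ∧
        ∀ z : CH (Ideal.span (Set.range G)) i, ∃ q : ℚ,
          z = q • (ratEq (Ideal.span (Set.range G)) i).mkQ (cyc (Ideal.span (Set.range G)) i
            (Ideal.span (Set.range G) ⊔ Ideal.span (Set.range fun j => X (c j))))) ∧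
    (∀ F : MvPolynomial (Fin N) K, ∀ hF : SF β n F, F ≠ 0 → ∀ i : ℕ,
      (m * i < s → n * (i + 1) < N → SectionMultiples F i Set.univ) ∧
      (∀ j : ℕ, 2 ≤ n → Smooth F → N = i + j + 2 → 1 ≤ j → j < i → m * j < s →
        SectionMultiples F i Set.univ) ∧
      ∀ (ζ : K) (hζ : IsPrimitiveRoot ζ m),
        (i + 2 ≤ N → ActsBySections hζ hmn hF i fun x => Splits x (i + 2) ∨
          BigSplits β n x (i + 1)) ∧
        ∀ j : ℕ, 2 ≤ n → Smooth F → N = i + j + 2 → 1 ≤ j → j < i → j < s →
          ActsBySections hζ hmn hF i fun x => Splits x (j + 1)) := by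
  have hn0 : 0 < n := by
    rw [hn]
    exact Nat.mul_pos (NeZero.pos m) (pow_pos (expChar_pos K (ringExpChar K)) a)
  refine ⟨fun ρ i hs G hG => ?_, fun F hF hF0 i => ?_⟩
  · refine chow_of_triv (low_any hn hm hβ (by omega) ?_ G hG)
    rw [Fintype.card_fin]
    have h1 : i + 1 + ρ - 1 = i + ρ := by omega
    rw [h1]
    exact hs
  have hex : i + 2 ≤ N → Infinite K → ∃ (r : ℕ) (c : Fin r → Fin N → K), IsSection F i c := by
    intro hiN hinf
    obtain ⟨c, h1, h2⟩ := exists_section (i := i) (r := N - (i + 2)) hn0 hF.hom hF0 (by omega)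
    exact ⟨N - (i + 2), c, h1, by omega, h2⟩
  refine ⟨fun hs hnN => ?_, fun j hn2 hsm hN hj hij hs => ?_, fun ζ hζ =>
    ⟨fun hiN => ?_, fun j hn2 hsm hN hj hij hs => ?_⟩⟩
  · have hiN : i + 2 ≤ N := by
      have h1 : i + 1 ≤ n * (i + 1) := Nat.le_mul_of_pos_left _ hn0
      omega
    exact ⟨hex hiN, fun r c hc α _ => perf_low hm hn hβ hF hs hnN hc.1 hc.2.1 hc.2.2 α⟩
  · exact ⟨hex (by omega), fun r c hc α _ =>
      perf_codim hm hn hn2 hN hj hij hs hβ hF hsm hc.1 hc.2.1 hc.2.2 α⟩
  · refine actsBySections fun z hz => ⟨hex hiN, fun r c hc => ?_⟩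
    rintro _ ⟨α, rfl⟩
    exact perf_plus hζ hn hβ hF hc.1 hc.2.1 hc.2.2 z hz (span_stable hζ.pow_eq_one hmn hF) α
  · refine actsBySections fun z hz => ⟨hex (by omega), fun r c hc => ?_⟩
    rintro _ ⟨α, rfl⟩
    exact perf_hart hζ hn hn2 hN hj hij hs hβ hF hsm hc.1 hc.2.1 hc.2.2 z hz
      (span_stable hζ.pow_eq_one hmn hF) α

end Pool.Agent.Results.MP_0b9e0b_ag.SumsOfFormsLowDim
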